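import Pool.Agent.Helper537_Nf.Fin2
set_option autoImplicit false

/-!
Beilinson's regulator on integral `K_2` of the elliptic curves `E_w : z + 1/z = w x² - w - 1/w` over
number fields `K`, `w` a unit of `K`: exact dimension and isomorphism, on the part of the integral classes
that is generated by the symbols `{z, u}`, where `u` is any function whose zeros and poles lie above
`K`-rational points of the `x`-line.  For every real quadratic field `K` and every unit `w ≠ ± 1`
(with eight exceptions for `ℚ(√5)`) the dimension is `2 = g [K : ℚ]`.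

The involution is `σ : z ↦ 1/z`; `E_w / σ` is the projective line, so that the classes that are invariant
under `σ` come from `K_2(K(x))`, and the integral ones among them are torsion (Garland); the regulator
kills them. We consider the classes with `σ κ = - κ`.
-/

namespace Pool.Agent.Results.MP_0a9c3b_nt.UnitCurvesIsomorphism

open Polynomial NumberField

open Pool.Agent.TH826.MK (KQ Torus Unramified)

open Pool.Agent.TH826.HD (PRing ppol isDomain_PRing)

open Pool.Agent.TH690.UF (SmoothPts)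

open Pool.Agent.Helper537_Sym (regR)

open Pool.Agent.Helper537_Nf (Cls main_unit torsion_points)

open Pool.Agent.TH690.UE (qf natDegree_qf eval_qf)

/-- The polynomial `F = w x² - w - 1/w`. -/
noncomputable def Fw {K : Type*} [Field K] (w : K) : K[X] := qf w (-(w + w⁻¹))

/-- `E_w` has no points with `x` in `K` and `z` a root of unity, except for those with `z = ± 1`. -/
def NoTorsion {K : Type*} [Field K] (w : K) : Prop :=
  ∀ (s : K →+* ℂ) (c : K) (ζ : ℂ) (n : ℕ), n ≠ 0 → ζ ^ n = 1 →
    s ((Fw w).eval c) = ζ + ζ⁻¹ → ζ ^ 2 = 1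

/-- `K` is a quadratic field and `w` is not one of the eight units `± φ ^ (± 1)`, `± φ ^ (± 2)`,
`φ = (1 + √5)/2`, i.e. not a zero of `w⁴ - 3 w² + 1` or `w⁴ - 7 w² + 1`. -/
def QuadraticCase {K : Type*} [Field K] [NumberField K] (w : K) : Prop :=
  Module.finrank ℚ K = 2 ∧ w ^ 4 - 3 * w ^ 2 + 1 ≠ 0 ∧ w ^ 4 - 7 * w ^ 2 + 1 ≠ 0

/-- The loop `Γ` in the spectrum of the function field lies over the embedding `s` of `K`. -/
def Over {K : Type*} [Field K] (F : K[X]) {L : Type*} [Field L] [Algebra (PRing F) L]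
    (s : K →+* ℂ) (Γ : Torus L 1) : Prop :=
  ∀ θ (y : K), Γ.e θ (algebraMap (PRing F) L (ppol F (C y))) = s y

/-- The space `Cls` has dimension `2`, and for all embeddings `s₁`, `s₂` of `K` with `|s₁ w| > 1` and
`|s₂ w| < 1` there are loops over `s₁` and over `s₂` such that the regulator `ℝ ⊗ Cls → ℝ²`,
`r ⊗ κ ↦ (r reg_{Γ_l}(κ))_l`, is bijective. -/
def Iso {K : Type*} [Field K] (w : K) (F : K[X]) (L : Type*) [Field L] [Algebra (PRing F) L]
    [IsFractionRing (PRing F) L] : Prop :=
  Module.finrank ℚ (Cls F L) = 2 ∧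
    ∀ s₁ s₂ : K →+* ℂ, 1 < ‖s₁ w‖ → ‖s₂ w‖ < 1 → ∃ Γ : Fin 2 → Torus L 1,
      Over F s₁ (Γ 0) ∧ Over F s₂ (Γ 1) ∧ Function.Bijective (regR Γ (Cls F L))

/-- Let `K` be a number field and `w` a unit of its ring of integers that is not a root of unity, and
suppose that
* `K` is a quadratic field and `w` is not one of the eight units `± φ ^ (± 1)`, `± φ ^ (± 2)` of
  `ℚ(√5)`, `φ = (1 + √5)/2` (`QuadraticCase`), or
* `K` is any number field and the curve has no points with `x` in `K` and `z` a root of unity different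
  from `± 1` (`NoTorsion`).

Put `F = w x² - w - 1/w`. Then the coordinate ring `A` of the plane curve `z² - F(x) z + 1 = 0` over
`K` is a domain and the curve is smooth at all its complex points over all embeddings (it is the affine
part of an elliptic curve). There are embeddings `s₁`, `s₂` of `K` with `|s₁ w| > 1` and `|s₂ w| < 1`
(if `K` is quadratic, these are all the embeddings). Let `L` be the field of fractions of `A`, `σ` its
automorphism `z ↦ 1/z` (`sig`), and let `Cls` be the space of the elements `κ` of `K_2^M(L) ⊗ ℚ` with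
`σ κ = - κ` that are unramified at all discrete valuations of `L` and lie in the space `VZ` generated by
the `σ`-invariant classes and all symbols `{z, u}`, where `u` is a function in `L^×` whose norm
`u σ(u)` to `K(x)` is a quotient of products of linear polynomials over `K`. Then (`Iso`) `Cls` has
dimension exactly `2`, and for all such `s₁`, `s₂` there are loops `Γ₁`, `Γ₂` in the spectrum of `L`
over `s₁` and over `s₂` such that the regulator `ℝ ⊗ Cls → ℝ²` is bijective. -/
theorem result.{u, v} (K : Type u) [Field K] [NumberField K] (w : (𝓞 K)ˣ)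
    (hw : ∀ n : ℕ, n ≠ 0 → w ^ n ≠ 1)
    (h : QuadraticCase (w : K) ∨ NoTorsion (w : K)) :
    IsDomain (PRing (Fw (w : K))) ∧ (∀ s : K →+* ℂ, SmoothPts s (Fw (w : K))) ∧
    (∃ s₁ : K →+* ℂ, 1 < ‖s₁ w‖) ∧ (∃ s₂ : K →+* ℂ, ‖s₂ w‖ < 1) ∧
    ∀ (L : Type v) [Field L] [Algebra (PRing (Fw (w : K))) L]
      [IsFractionRing (PRing (Fw (w : K))) L], Iso (w : K) (Fw (w : K)) L := by
  have hw0 : (w : K) ≠ 0 := NumberField.Units.coe_ne_zero w
  have iw : IsIntegral ℤ (w : K) := RingOfIntegers.isIntegral_coe _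
  have hinv : ((w⁻¹ : (𝓞 K)ˣ) : K) = (w : K)⁻¹ := by
    refine eq_inv_of_mul_eq_one_left ?_
    rw [← map_mul, ← Units.val_mul, inv_mul_cancel, Units.val_one, map_one]
  have iw' : IsIntegral ℤ (w : K)⁻¹ := by
    rw [← hinv]
    exact RingOfIntegers.isIntegral_coe _
  have hroot : ∀ x : (𝓞 K)ˣ, (∀ s : K →+* ℂ, ‖s x‖ ≤ 1) → ∃ n : ℕ, n ≠ 0 ∧ x ^ n = 1 := by
    intro x hx
    obtain ⟨n, hn, h⟩ := Embeddings.pow_eq_one_of_norm_le_one K ℂ
      (NumberField.Units.coe_ne_zero x) (RingOfIntegers.isIntegral_coe _) hx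
    refine ⟨n, hn.ne', ?_⟩
    apply Units.ext
    apply RingOfIntegers.ext
    rw [Units.val_pow_eq_pow_val, Units.val_one]
    have h2 : (algebraMap (𝓞 K) K) ((x : 𝓞 K) ^ n) = (algebraMap (𝓞 K) K) 1 := by
      rw [map_pow, map_one]
      exact h
    exact h2
  have hw2 : (w : K) ^ 2 ≠ 1 := by
    intro h2
    apply hw 2 two_ne_zero
    apply Units.ext
    apply RingOfIntegers.ext
    rw [Units.val_pow_eq_pow_val, Units.val_one]
    have h3 : (algebraMap (𝓞 K) K) ((w : 𝓞 K) ^ 2) = (algebraMap (𝓞 K) K) 1 := by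
      rw [map_pow, map_one]
      exact h2
    exact h3
  have ht : ∀ ε : K, ε = 1 ∨ ε = -1 → -((w : K) + (w : K)⁻¹) ≠ 2 * ε := by
    intro ε hε h
    have hε2 : ε ^ 2 = 1 := by
      rcases hε with h | h <;> rw [h] <;> norm_num
    have h3 : ((w : K) + ε) ^ 2 = 0 := by
      have h4 : (w : K) * (w : K)⁻¹ = 1 := mul_inv_cancel₀ hw0
      linear_combination (-(w : K)) * h - h4 + hε2
    have h5 : (w : K) = -ε := by
      have := pow_eq_zero_iff two_ne_zero |>.1 h3
      linear_combination this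
    apply hw2
    rw [h5, neg_sq, hε2]
  have hex1 : ∃ s₁ : K →+* ℂ, 1 < ‖s₁ w‖ := by
    by_contra hcon
    push Not at hcon
    obtain ⟨n, hn, h⟩ := hroot w hcon
    exact hw n hn h
  have hex2 : ∃ s₂ : K →+* ℂ, ‖s₂ w‖ < 1 := by
    by_contra hcon
    push Not at hcon
    obtain ⟨n, hn, h⟩ := hroot w⁻¹ fun s => by
      rw [hinv, map_inv₀, norm_inv]
      exact inv_le_one_of_one_le₀ (hcon s)
    exact hw n hn (by rw [← inv_inj, ← inv_pow, h, inv_one])
  have hS : ∀ (s : K →+* ℂ) (c : K) (ζ : ℂ) (n : ℕ), n ≠ 0 → ζ ^ n = 1 →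
      s ((w : K) * c ^ 2 + -((w : K) + (w : K)⁻¹)) = ζ + ζ⁻¹ →
      (w : K) * c ^ 2 + -((w : K) + (w : K)⁻¹) = 2 ∨
      (w : K) * c ^ 2 + -((w : K) + (w : K)⁻¹) = -2 := by
    intro s c ζ n hn hζ hs
    rcases h with ⟨h2, h3, h7⟩ | h
    · obtain ⟨τ, hτ, he⟩ := torsion_points h2 w hw h3 h7 s c ζ n hn hζ hs
      rcases hτ with rfl | rfl
      · left
        rw [he]
        norm_num
      · right
        rw [he]
        norm_num
    · have h2 := h s c ζ n hn hζ (by
        unfold Fw
        rw [eval_qf]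
        exact hs)
      have h3 : (ζ - 1) * (ζ + 1) = 0 := by linear_combination h2
      rcases mul_eq_zero.1 h3 with h4 | h4
      · left
        apply s.injective
        rw [hs, sub_eq_zero.1 h4, map_ofNat]
        norm_num
      · right
        apply s.injective
        rw [hs, eq_neg_of_add_eq_zero_left h4, map_neg, map_ofNat]
        norm_num
  have key := fun (s₁ s₂ : K →+* ℂ) (h1 : 1 < ‖s₁ w‖) (h2 : ‖s₂ w‖ < 1) (L : Type v) [Field L]
    [Algebra (PRing (qf (w : K) (-((w : K) + (w : K)⁻¹)))) L]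
    [IsFractionRing (PRing (qf (w : K) (-((w : K) + (w : K)⁻¹)))) L] =>
    main_unit (w := (w : K)) (t := -((w : K) + (w : K)⁻¹)) rfl rfl rfl hw0 hw2 iw iw' h1 h2 L (hS s₁)
  refine ⟨isDomain_PRing ?_, fun s => ?_, hex1, hex2, ?_⟩
  · unfold Fw
    rw [natDegree_qf hw0]
    norm_num
  · exact Pool.Agent.Y775.UN.smooth_qf hw0 (by simpa using ht 1 (Or.inl rfl))
      (by simpa using ht (-1) (Or.inr rfl))
  · unfold Fw
    intro L _ _ _
    obtain ⟨s₁, h1⟩ := hex1
    obtain ⟨s₂, h2⟩ := hex2
    exact ⟨(key s₁ s₂ h1 h2 L).1, fun s₁ s₂ h1 h2 => (key s₁ s₂ h1 h2 L).2⟩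

end Pool.Agent.Results.MP_0a9c3b_nt.UnitCurvesIsomorphism
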